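import Mathlib

set_option autoImplicit false

namespace Pool.Agent.Helper429.QV

/-- A quasi-identity: finitely many premises `u = 1` and a conclusion `c = 1`. -/
structure QuasiIdentity : Type where
  /-- the words of the premises -/
  prem : List (FreeGroup ℕ)
  /-- the word of the conclusion -/
  concl : FreeGroup ℕ

/-- The quasi-identity holds in the group `G`. -/
def QuasiIdentity.Holds (q : QuasiIdentity) (G : Type) [Group G] : Prop :=
  ∀ φ : FreeGroup ℕ →* G, (∀ u ∈ q.prem, φ u = 1) → φ q.concl = 1

/-- A class of groups. -/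
abbrev Cls : Type 1 := (G : Type) → [Group G] → Prop

/-- A class of groups is a quasivariety if it is defined by a set of quasi-identities. -/
def IsQuasivariety (X : Cls) : Prop :=
  ∃ Q : Set QuasiIdentity, ∀ (G : Type) [Group G], X G ↔ ∀ q ∈ Q, q.Holds G

/-- The word `w` is an identity of the class `X`. -/
def Sat (X : Cls) (w : FreeGroup ℕ) : Prop :=
  ∀ (G : Type) [Group G], X G → ∀ φ : FreeGroup ℕ →* G, φ w = 1

/-- kernel of the projection to the ultraproduct -/
def upKer {ι : Type} (U : Ultrafilter ι) (G : ι → Type) [∀ i, Group (G i)] :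
    Subgroup (∀ i, G i) where
  carrier := {f | ∀ᶠ i in (U : Filter ι), f i = 1}
  one_mem' := Filter.Eventually.of_forall fun i => rfl
  mul_mem' := by
    intro a b ha hb
    filter_upwards [ha, hb] with i h1 h2
    rw [Pi.mul_apply, h1, h2, mul_one]
  inv_mem' := by
    intro a ha
    filter_upwards [ha] with i h1
    rw [Pi.inv_apply, h1, inv_one]

lemma mem_upKer {ι : Type} {U : Ultrafilter ι} {G : ι → Type} [∀ i, Group (G i)]
    {f : ∀ i, G i} : f ∈ upKer U G ↔ ∀ᶠ i in (U : Filter ι), f i = 1 := Iff.rfl

instance {ι : Type} (U : Ultrafilter ι) (G : ι → Type) [∀ i, Group (G i)] :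
    (upKer U G).Normal where
  conj_mem := by
    intro n hn g
    rw [mem_upKer] at *
    filter_upwards [hn] with i h1
    simp [h1]

/-- the ultraproduct -/
abbrev UP {ι : Type} (U : Ultrafilter ι) (G : ι → Type) [∀ i, Group (G i)] : Type :=
  (∀ i, G i) ⧸ upKer U G

/-- closure properties of quasivarieties -/
structure Closed (X : Cls) : Prop where
  inj : ∀ {G H : Type} [Group G] [Group H] (f : H →* G), Function.Injective f → X G → X H
  pi : ∀ {ι : Type} (G : ι → Type) [∀ i, Group (G i)], (∀ i, X (G i)) → X (∀ i, G i)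
  up : ∀ {ι : Type} (U : Ultrafilter ι) (G : ι → Type) [∀ i, Group (G i)], (∀ i, X (G i)) →
    X (UP U G)

lemma Closed.triv {X : Cls} (hX : Closed X) {G : Type} [Group G] (h : ∀ g : G, g = 1) : X G := by
  have h1 : X (∀ i : Empty, (fun _ => Unit) i) := hX.pi (ι := Empty) (fun _ => Unit) (fun i => i.elim)
  refine hX.inj (1 : G →* (∀ i : Empty, (fun _ => Unit) i)) ?_ h1
  intro a b _
  rw [h a, h b]

lemma Closed.subgroup {X : Cls} (hX : Closed X) {G : Type} [Group G] (h : X G) (H : Subgroup G) :
    X H := hX.inj H.subtype H.subtype_injective h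

lemma Closed.iso {X : Cls} (hX : Closed X) {G H : Type} [Group G] [Group H] (e : H ≃* G)
    (h : X G) : X H := hX.inj e.toMonoidHom e.injective h

/-- a subgroup of the range of an injective homomorphism from a member -/
lemma Closed.of_le_range {X : Cls} (hX : Closed X) {G K : Type} [Group G] [Group K] (f : K →* G)
    (hf : Function.Injective f) (hK : X K) {H : Subgroup G} (h : H ≤ f.range) : X H := by
  have h1 : X f.range := hX.iso (MonoidHom.ofInjective hf).symm hK
  exact hX.inj (Subgroup.inclusion h) (Subgroup.inclusion_injective h) h1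

/-- a group separated by homomorphisms to members is a member -/
lemma Closed.sep {X : Cls} (hX : Closed X) {G : Type} [Group G]
    (h : ∀ g : G, g ≠ 1 → ∃ (H : Type) (_ : Group H) (f : G →* H), X H ∧ f g ≠ 1) : X G := by
  choose H iH f hf hg using h
  let H' : {g : G // g ≠ 1} → Type := fun g => H g.1 g.2
  let _ : ∀ i, Group (H' i) := fun g => iH g.1 g.2
  let F : G →* (∀ i, H' i) :=
    { toFun := fun x i => f i.1 i.2 x
      map_one' := by funext i; exact map_one _
      map_mul' := by intro x y; funext i; exact map_mul _ _ _ }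
  refine hX.inj F ?_ (hX.pi H' (fun i => hf i.1 i.2))
  rw [injective_iff_map_eq_one]
  intro g hg1
  by_contra hne
  exact hg g hne (congrFun hg1 ⟨g, hne⟩)

lemma Closed.prod {X : Cls} (hX : Closed X) {G H : Type} [Group G] [Group H] (hG : X G) (hH : X H) :
    X (G × H) := by
  apply hX.sep
  rintro ⟨a, b⟩ hab
  by_cases ha : a = 1
  · refine ⟨H, inferInstance, MonoidHom.snd G H, hH, ?_⟩
    intro hb
    apply hab
    simp only [MonoidHom.coe_snd] at hb
    rw [ha, hb]; rfl
  · exact ⟨G, inferInstance, MonoidHom.fst G H, hG, ha⟩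

/-- quasivarieties are closed -/
lemma IsQuasivariety.closed {X : Cls} (h : IsQuasivariety X) : Closed X := by
  obtain ⟨Q, hQ⟩ := h
  refine ⟨?_, ?_, ?_⟩
  · intro G H _ _ f hf hG
    rw [hQ] at *
    intro q hq φ hφ
    apply hf
    rw [map_one]
    exact hG q hq (f.comp φ) (fun u hu => by rw [MonoidHom.comp_apply, hφ u hu, map_one])
  · intro ι G _ hG
    rw [hQ]
    intro q hq φ hφ
    funext i
    have h1 := (hQ (G i)).1 (hG i) q hq ((Pi.evalMonoidHom G i).comp φ)
      (fun u hu => by rw [MonoidHom.comp_apply, hφ u hu, map_one])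
    exact h1
  · intro ι U G _ hG
    rw [hQ]
    intro q hq φ hφ
    choose s hs using QuotientGroup.mk'_surjective (upKer U G)
    let φ' : FreeGroup ℕ →* (∀ i, G i) := FreeGroup.lift fun n => s (φ (FreeGroup.of n))
    have hφ' : ∀ w, QuotientGroup.mk' (upKer U G) (φ' w) = φ w := by
      intro w
      have : (QuotientGroup.mk' (upKer U G)).comp φ' = φ := by
        apply FreeGroup.ext_hom
        intro n
        rw [MonoidHom.comp_apply, FreeGroup.lift_apply_of]
        exact hs _
      exact DFunLike.congr_fun this w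
    have key : ∀ w, φ w = 1 ↔ ∀ᶠ i in (U : Filter ι), φ' w i = 1 := by
      intro w
      rw [← hφ' w]
      exact (QuotientGroup.eq_one_iff _)
    rw [key]
    have h1 : ∀ l : List (FreeGroup ℕ), (∀ u ∈ l, φ u = 1) →
        ∀ᶠ i in (U : Filter ι), ∀ u ∈ l, φ' u i = 1 := by
      intro l
      induction l with
      | nil => intro _; exact Filter.Eventually.of_forall (fun i u hu => by simp at hu)
      | cons a l ih =>
        intro hl
        have h2 := (key a).1 (hl a List.mem_cons_self)
        have h3 := ih (fun u hu => hl u (List.mem_cons_of_mem _ hu))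
        filter_upwards [h2, h3] with i h4 h5 u hu
        rcases List.mem_cons.1 hu with rfl | hu
        · exact h4
        · exact h5 u hu
    filter_upwards [h1 q.prem hφ] with i hi
    exact (hQ (G i)).1 (hG i) q hq ((Pi.evalMonoidHom G i).comp φ') (fun u hu => hi u hu)

/-- Theorem of Malcev: closed classes are quasivarieties. -/
lemma Closed.isQuasivariety {X : Cls} (hX : Closed X) : IsQuasivariety X := by
  refine ⟨{q | ∀ (G : Type) [Group G], X G → q.Holds G}, fun G _ => ⟨fun hG q hq => hq G hG, ?_⟩⟩
  intro hG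
  apply hX.sep
  intro g hg
  let π : FreeGroup G →* G := FreeGroup.lift id
  -- finite approximations
  have hfin : ∀ s : Finset π.ker, ∃ (K : Type) (_ : Group K) (φ : FreeGroup G →* K),
      X K ∧ (∀ r ∈ s, φ (r : FreeGroup G) = 1) ∧ φ (FreeGroup.of g) ≠ 1 := by
    classical
    intro s
    -- the letters which occur
    have hlet : ∀ w : FreeGroup G, ∃ T : Finset G, ∀ (e : G → ℕ) (d : ℕ → G),
        (∀ x ∈ T, d (e x) = x) → FreeGroup.map d (FreeGroup.map e w) = w := by
      intro w
      induction w using FreeGroup.induction_on with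
      | C1 => exact ⟨∅, fun e d _ => by simp⟩
      | of x => exact ⟨{x}, fun e d h => by simp [h x (Finset.mem_singleton_self x)]⟩
      | inv_of x ih =>
        obtain ⟨T, hT⟩ := ih
        exact ⟨T, fun e d h => by rw [map_inv, map_inv, hT e d h]⟩
      | mul a b iha ihb =>
        obtain ⟨T, hT⟩ := iha
        obtain ⟨T', hT'⟩ := ihb
        exact ⟨T ∪ T', fun e d h => by
          rw [map_mul, map_mul, hT e d (fun x hx => h x (Finset.mem_union_left _ hx)),
            hT' e d (fun x hx => h x (Finset.mem_union_right _ hx))]⟩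
    choose T hT using hlet
    let T0 : Finset G := insert g (s.biUnion fun r => T (r : FreeGroup G))
    obtain ⟨e, d, hed⟩ : ∃ (e : G → ℕ) (d : ℕ → G), ∀ x ∈ T0, d (e x) = x := by
      refine ⟨fun x => T0.toList.idxOf x, fun n => T0.toList.getD n 1, fun x hx => ?_⟩
      have h1 : T0.toList.idxOf x < T0.toList.length :=
        List.idxOf_lt_length_iff.2 (Finset.mem_toList.2 hx)
      simp only
      rw [List.getD_eq_getElem _ _ h1]
      exact List.getElem_idxOf h1
    let q : QuasiIdentity := ⟨s.toList.map (fun r : π.ker => FreeGroup.map e r.1),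
      FreeGroup.of (e g)⟩
    by_contra hcon
    have hq : ∀ (K : Type) [Group K], X K → q.Holds K := by
      intro K _ hK φ hφ
      by_contra hne
      apply hcon
      refine ⟨K, inferInstance, φ.comp (FreeGroup.map e), hK, ?_, ?_⟩
      · intro r hr
        exact hφ _ (List.mem_map.2 ⟨r, Finset.mem_toList.2 hr, rfl⟩)
      · rw [MonoidHom.comp_apply, FreeGroup.map.of]
        exact hne
    have h1 := hG q hq (FreeGroup.lift d) (by
      intro u hu
      obtain ⟨r, hr, rfl⟩ := List.mem_map.1 hu
      have h2 : FreeGroup.lift d (FreeGroup.map e (r : FreeGroup G)) = π (r : FreeGroup G) := by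
        have h3 : π (FreeGroup.map d (FreeGroup.map e (r : FreeGroup G))) =
            FreeGroup.lift d (FreeGroup.map e (r : FreeGroup G)) := by
          have : π.comp (FreeGroup.map d) = FreeGroup.lift d := by
            apply FreeGroup.ext_hom
            intro n
            simp [π]
          exact DFunLike.congr_fun this _
        rw [← h3, hT _ e d (fun x hx => hed x (Finset.mem_insert_of_mem
          (Finset.mem_biUnion.2 ⟨r, Finset.mem_toList.1 hr, hx⟩)))]
      rw [h2]
      exact r.2)
    have h4 : FreeGroup.lift d (FreeGroup.of (e g)) = g := by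
      rw [FreeGroup.lift_apply_of]
      exact hed g (Finset.mem_insert_self g _)
    exact hg (h4.symm.trans h1)
  choose K iK φ hK hs hne using hfin
  let _ : ∀ s, Group (K s) := iK
  let U : Ultrafilter (Finset π.ker) := Ultrafilter.of Filter.atTop
  have hU : (U : Filter (Finset π.ker)) ≤ Filter.atTop := Ultrafilter.of_le _
  let Φ : FreeGroup G →* UP U K := (QuotientGroup.mk' (upKer U K)).comp
    { toFun := fun w s => φ s w
      map_one' := by funext s; exact map_one _
      map_mul' := by intro x y; funext s; exact map_mul _ _ _ }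
  have hΦ : ∀ w, Φ w = 1 ↔ ∀ᶠ s in (U : Filter _), φ s w = 1 := by
    intro w
    exact QuotientGroup.eq_one_iff _
  have hker : ∀ w ∈ π.ker, Φ w = 1 := by
    intro w hw
    rw [hΦ]
    have h1 : ∀ᶠ s : Finset π.ker in Filter.atTop, {⟨w, hw⟩} ≤ s := Filter.eventually_ge_atTop _
    filter_upwards [hU h1] with s h2
    exact hs s ⟨w, hw⟩ (h2 (Finset.mem_singleton_self _))
  let f : G →* UP U K := MonoidHom.mk' (fun x => Φ (FreeGroup.of x)) (by
    intro x y
    have h1 := hker ((FreeGroup.of (x * y))⁻¹ * (FreeGroup.of x * FreeGroup.of y)) (by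
      rw [MonoidHom.mem_ker]
      simp [π])
    rw [map_mul, map_inv, inv_mul_eq_one] at h1
    rw [h1, map_mul])
  refine ⟨UP U K, inferInstance, f, hX.up U K hK, ?_⟩
  intro h1
  have h2 : Φ (FreeGroup.of g) = 1 := h1
  rw [hΦ] at h2
  obtain ⟨s, hs'⟩ := h2.exists
  exact hne s hs'

end Pool.Agent.Helper429.QV
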