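import Mathlib
import Pool.Agent.Helper429.QV.Res

set_option autoImplicit false

namespace Pool.Agent.Helper429.QV

open scoped commutatorElement

/-- The unrestricted regular wreath product. -/
@[ext] structure Wr (N G : Type) : Type where
  /-- base component -/
  f : G → N
  /-- top component -/
  t : G

namespace Wr

variable {N G : Type} [Group N] [Group G]

instance : Mul (Wr N G) := ⟨fun a b => ⟨fun x => a.f x * b.f (a.t⁻¹ * x), a.t * b.t⟩⟩
instance : One (Wr N G) := ⟨⟨fun _ => 1, 1⟩⟩
instance : Inv (Wr N G) := ⟨fun a => ⟨fun x => (a.f (a.t * x))⁻¹, a.t⁻¹⟩⟩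

@[simp] lemma mul_f (a b : Wr N G) (x : G) : (a * b).f x = a.f x * b.f (a.t⁻¹ * x) := rfl
@[simp] lemma mul_t (a b : Wr N G) : (a * b).t = a.t * b.t := rfl
@[simp] lemma one_f (x : G) : (1 : Wr N G).f x = 1 := rfl
@[simp] lemma one_t : (1 : Wr N G).t = 1 := rfl
@[simp] lemma inv_f (a : Wr N G) (x : G) : (a⁻¹).f x = (a.f (a.t * x))⁻¹ := rfl
@[simp] lemma inv_t (a : Wr N G) : (a⁻¹).t = a.t⁻¹ := rfl

instance : Group (Wr N G) where
  mul_assoc a b c := by ext <;> simp [mul_assoc]
  one_mul a := by ext <;> simp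
  mul_one a := by ext <;> simp
  inv_mul_cancel a := by ext <;> simp

/-- projection to the top group -/
def topHom (N G : Type) [Group N] [Group G] : Wr N G →* G where
  toFun := Wr.t
  map_one' := rfl
  map_mul' _ _ := rfl

@[simp] lemma topHom_apply (x : Wr N G) : topHom N G x = x.t := rfl

/-- the top group -/
def top (N : Type) {G : Type} [Group N] [Group G] : G →* Wr N G where
  toFun t := ⟨fun _ => 1, t⟩
  map_one' := rfl
  map_mul' _ _ := by ext <;> simp

@[simp] lemma top_f (t : G) (x : G) : (top N t).f x = 1 := rfl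
@[simp] lemma top_t (t : G) : (top N t).t = t := rfl

/-- the base group -/
def base : (G → N) →* Wr N G where
  toFun f := ⟨f, 1⟩
  map_one' := rfl
  map_mul' _ _ := by ext <;> simp

@[simp] lemma base_f (f : G → N) (x : G) : (base f).f x = f x := rfl
@[simp] lemma base_t (f : G → N) : (base f).t = 1 := rfl

lemma eq_base_mul_top (x : Wr N G) : x = base x.f * top N x.t := by ext <;> simp

/-- change of the base group -/
def mapL {N' : Type} [Group N'] (α : N →* N') : Wr N G →* Wr N' G where
  toFun x := ⟨fun g => α (x.f g), x.t⟩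
  map_one' := by ext <;> simp
  map_mul' _ _ := by ext <;> simp

@[simp] lemma mapL_f {N' : Type} [Group N'] (α : N →* N') (x : Wr N G) (g : G) :
    (mapL α x).f g = α (x.f g) := rfl
@[simp] lemma mapL_t {N' : Type} [Group N'] (α : N →* N') (x : Wr N G) : (mapL α x).t = x.t := rfl

/-- the elements whose top component lies in `P` -/
def ovr (N : Type) {G : Type} [Group N] [Group G] (P : Subgroup G) : Subgroup (Wr N G) :=
  P.comap (topHom N G)

lemma mem_ovr {P : Subgroup G} {x : Wr N G} : x ∈ ovr N P ↔ x.t ∈ P := Iff.rfl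

/-- the embedding theorem of Kaloujnine and Krasner -/
lemma exists_kk {H G : Type} [Group H] [Group G] (θ : H →* G) :
    ∃ F : H →* Wr θ.ker G, Function.Injective F ∧ ∀ h, (F h).t = θ h := by
  classical
  -- representatives of the right cosets of the range
  let s : Setoid G :=
    { r := fun x y => ∃ h : H, y = θ h * x
      iseqv := ⟨fun x => ⟨1, by simp⟩, fun {x y} ⟨h, hh⟩ => ⟨h⁻¹, by rw [hh]; simp⟩,
        fun {x y z} ⟨h, hh⟩ ⟨h', hh'⟩ => ⟨h' * h, by rw [hh', hh]; simp [mul_assoc]⟩⟩ }
  let τ : G → G := fun x => (Quotient.mk s x).out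
  have hτ : ∀ x : G, ∃ h : H, τ x = θ h * x := by
    intro x
    have h1 : Quotient.mk s (τ x) = Quotient.mk s x := Quotient.out_eq _
    have h2 : s.r x (τ x) := s.iseqv.symm (Quotient.exact h1)
    exact h2
  have hτ' : ∀ (h : H) (x : G), τ (θ h * x) = τ x := by
    intro h x
    have : Quotient.mk s (θ h * x) = Quotient.mk s x := Quotient.sound (s.iseqv.symm ⟨h, rfl⟩)
    simp only [τ, this]
  choose σ hσ using fun x => hτ x
  -- `θ (σ x) * x = τ x`
  have hk : ∀ (h : H) (x : G), σ x * h * (σ ((θ h)⁻¹ * x))⁻¹ ∈ θ.ker := by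
    intro h x
    have e1 : θ (σ x) = τ x * x⁻¹ := by rw [hσ x]; group
    have e2 : θ (σ ((θ h)⁻¹ * x)) = τ x * x⁻¹ * θ h := by
      have h3 := hσ ((θ h)⁻¹ * x)
      have h4 : τ ((θ h)⁻¹ * x) = τ x := by
        have := hτ' h⁻¹ x
        rwa [map_inv] at this
      rw [h4] at h3
      rw [h3]; group
    rw [MonoidHom.mem_ker, map_mul, map_mul, map_inv, e1, e2]
    group
  refine ⟨{ toFun := fun h => ⟨fun x => ⟨σ x * h * (σ ((θ h)⁻¹ * x))⁻¹, hk h x⟩, θ h⟩
            map_one' := ?_
            map_mul' := ?_ }, ?_, fun h => rfl⟩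
  · ext x
    · simp
    · simp
  · intro a b
    ext x
    · simp [mul_assoc]
    · simp
  · rw [injective_iff_map_eq_one]
    intro h hh
    have h1 : θ h = 1 := congrArg Wr.t hh
    have h2 := congrArg (fun z => ((z.f 1 : θ.ker) : H)) hh
    simp only [MonoidHom.coe_mk, OneHom.coe_mk, h1, inv_one, one_mul, one_f] at h2
    have h3 : σ 1 * h * (σ 1)⁻¹ = 1 := h2
    rw [mul_inv_eq_one, mul_eq_left] at h3
    exact h3

/-- restriction of coordinates: evaluation at a point is multiplicative on the base group -/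
def evAt (N : Type) {G : Type} [Group N] [Group G] (c : G) : (ovr N (⊥ : Subgroup G)) →* N where
  toFun x := x.1.f c
  map_one' := rfl
  map_mul' a b := by
    have : a.1.t = 1 := a.2
    simp [this]

end Wr

/-- membership of wreath products in products of classes -/
lemma wr_mem {X Y : Cls} (hX : Closed X) (hY : Closed Y) {N G : Type} [Group N] [Group G]
    (hN : X N) (hG : Y G) : mulCls X Y (Wr N G) := by
  refine mulCls_of_hom hX hY (Wr.topHom N G) hG ?_
  let F : (Wr.topHom N G).ker →* (G → N) :=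
    { toFun := fun x => x.1.f
      map_one' := rfl
      map_mul' := by
        intro a b
        have : a.1.t = 1 := a.2
        funext x
        simp [this] }
  refine hX.inj F ?_ (hX.pi (fun _ => N) (fun _ => hN))
  intro a b hab
  apply Subtype.ext
  have h1 : a.1.t = 1 := a.2
  have h2 : b.1.t = 1 := b.2
  ext x
  · exact congrFun hab x
  · rw [h1, h2]

end Pool.Agent.Helper429.QV
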