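import Mathlib
import Pool.Agent.Helper429.QV.Wr

set_option autoImplicit false

namespace Pool.Agent.Helper429.QV

open scoped commutatorElement

section lists

variable {α : Type}

lemma mk_cons_true (i : α) (l : List (α × Bool)) :
    FreeGroup.mk ((i, true) :: l) = FreeGroup.of i * FreeGroup.mk l := by
  change _ = FreeGroup.mk [(i, true)] * _
  rw [FreeGroup.mul_mk]; rfl

lemma mk_cons_false (i : α) (l : List (α × Bool)) :
    FreeGroup.mk ((i, false) :: l) = (FreeGroup.of i)⁻¹ * FreeGroup.mk l := by
  change _ = (FreeGroup.mk [(i, true)])⁻¹ * _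
  rw [FreeGroup.inv_mk, FreeGroup.mul_mk]; rfl

lemma mk_append (l l' : List (α × Bool)) :
    FreeGroup.mk (l ++ l') = FreeGroup.mk l * FreeGroup.mk l' := by
  rw [FreeGroup.mul_mk]

lemma mk_nil : FreeGroup.mk ([] : List (α × Bool)) = 1 := rfl

end lists

/-- letters of the rewritten words -/
abbrev Let (m : ℕ) : Type := Option (ℕ × ZMod m)

/-- integer representative -/
def rep {m : ℕ} (j : ZMod m) : ℤ := j.cast

lemma rep_zero {m : ℕ} : rep (0 : ZMod m) = 0 := by
  unfold rep
  exact ZMod.cast_zero

lemma rep_succ {m : ℕ} (hm : m ≠ 1) (j : ZMod m) :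
    rep (j + 1) = rep j + 1 - if j = -1 then (m : ℤ) else 0 := by
  unfold rep
  cases m with
  | zero =>
    have h : ∀ j : ℤ, (j + 1 : ℤ) = j + 1 - if j = -1 then ((0 : ℕ) : ℤ) else 0 := by
      intro j
      split_ifs <;> simp
    exact h j
  | succ n =>
    have hn : 1 < n + 1 := by omega
    have : Fact (1 < n + 1) := ⟨hn⟩
    rw [ZMod.cast_eq_val, ZMod.cast_eq_val]
    by_cases hj : j = -1
    · rw [if_pos hj, hj, neg_add_cancel, ZMod.val_zero, ZMod.val_neg_one]
      push_cast; ring
    · rw [if_neg hj]
      have h1 : j.val ≠ n := by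
        intro h
        apply hj
        apply ZMod.val_injective (n + 1)
        rw [h, ZMod.val_neg_one]
      have h2 : j.val < n + 1 := ZMod.val_lt j
      have h3 : (j + 1).val = j.val + (1 : ZMod (n + 1)).val := by
        apply ZMod.val_add_of_lt
        rw [ZMod.val_one]
        omega
      rw [h3, ZMod.val_one]
      push_cast; ring

lemma zero_ne_neg_one {m : ℕ} (hm : m ≠ 1) : (0 : ZMod m) ≠ -1 := by
  intro h
  have h1 : ((1 : ℕ) : ZMod m) = 0 := by
    have := congrArg (fun z => z + 1) h
    simp at this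
    simp [this]
  rw [ZMod.natCast_eq_zero_iff] at h1
  exact hm (Nat.dvd_one.1 h1)

/-- rewriting of a word -/
def walk (a : ℕ) {m : ℕ} : ZMod m → List (ℕ × Bool) → List (Let m × Bool)
  | _, [] => []
  | j, (i, true) :: l =>
    if i = a then (if j = -1 then (none, true) :: walk a (j + 1) l else walk a (j + 1) l)
    else (some (i, j), true) :: walk a j l
  | j, (i, false) :: l =>
    if i = a then (if j = 0 then (none, false) :: walk a (j - 1) l else walk a (j - 1) l)
    else (some (i, j), false) :: walk a j l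

/-- the final position -/
def endp (a : ℕ) {m : ℕ} : ZMod m → List (ℕ × Bool) → ZMod m
  | j, [] => j
  | j, (i, true) :: l => if i = a then endp a (j + 1) l else endp a j l
  | j, (i, false) :: l => if i = a then endp a (j - 1) l else endp a j l

lemma walk_length (a : ℕ) {m : ℕ} (j : ZMod m) (l : List (ℕ × Bool)) :
    (walk a j l).length ≤ l.length := by
  induction l generalizing j with
  | nil => simp [walk]
  | cons p l ih =>
    obtain ⟨i, b⟩ := p
    cases b
    · simp only [walk]
      split_ifs
      · simpa using ih _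
      · exact (ih _).trans (by simp)
      · simpa using ih _
    · simp only [walk]
      split_ifs
      · simpa using ih _
      · exact (ih _).trans (by simp)
      · simpa using ih _

/-- the back substitution -/
def bck (a m : ℕ) : FreeGroup (Let m) →* FreeGroup ℕ :=
  FreeGroup.lift fun x => match x with
    | none => (FreeGroup.of a) ^ (m : ℤ)
    | some (i, j) => (FreeGroup.of a) ^ (rep j) * FreeGroup.of i * ((FreeGroup.of a) ^ (rep j))⁻¹

lemma bck_none (a m : ℕ) : bck a m (FreeGroup.of none) = (FreeGroup.of a) ^ (m : ℤ) := by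
  unfold bck; rw [FreeGroup.lift_apply_of]

lemma bck_some (a m i : ℕ) (j : ZMod m) : bck a m (FreeGroup.of (some (i, j))) =
    (FreeGroup.of a) ^ (rep j) * FreeGroup.of i * ((FreeGroup.of a) ^ (rep j))⁻¹ := by
  unfold bck; rw [FreeGroup.lift_apply_of]

lemma bck_walk (a : ℕ) {m : ℕ} (hm : m ≠ 1) (l : List (ℕ × Bool)) (j : ZMod m) :
    bck a m (FreeGroup.mk (walk a j l)) = (FreeGroup.of a) ^ (rep j) * FreeGroup.mk l *
      ((FreeGroup.of a) ^ (rep (endp a j l)))⁻¹ := by
  induction l generalizing j with
  | nil => simp [walk, endp, mk_nil]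
  | cons p l ih =>
    obtain ⟨i, b⟩ := p
    cases b
    · simp only [walk, endp]
      by_cases hi : i = a
      · subst hi
        simp only [if_true]
        have h1 := rep_succ hm (j - 1)
        rw [sub_add_cancel] at h1
        have h2 : (j - 1 = -1) ↔ (j = 0) := by
          constructor
          · intro h
            have := congrArg (fun z => z + 1) h
            simpa using this
          · intro h; rw [h, zero_sub]
        by_cases hj : j = 0
        · rw [if_pos hj, mk_cons_false, mk_cons_false, map_mul, map_inv, bck_none, ih]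
          rw [if_pos (h2.2 hj)] at h1
          have h3 : rep j = rep (j - 1) + 1 - (m : ℤ) := h1
          rw [h3]
          group
        · rw [if_neg hj, mk_cons_false, ih]
          rw [if_neg (fun h => hj (h2.1 h))] at h1
          rw [h1]
          group
      · rw [if_neg hi, if_neg hi, mk_cons_false, mk_cons_false, map_mul, map_inv, bck_some, ih]
        group
    · simp only [walk, endp]
      by_cases hi : i = a
      · subst hi
        simp only [if_true]
        have h1 := rep_succ hm j
        by_cases hj : j = -1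
        · rw [if_pos hj, mk_cons_true, mk_cons_true, map_mul, bck_none, ih]
          rw [if_pos hj] at h1
          rw [h1]
          group
        · rw [if_neg hj, mk_cons_true, ih]
          rw [if_neg hj] at h1
          rw [h1]
          group
      · rw [if_neg hi, if_neg hi, mk_cons_true, mk_cons_true, map_mul, bck_some, ih]
        group

/-- The subgroup of a wreath product with top group `G × G` used for the descent. -/
def TS (N : Type) [Group N] {G : Type} [Group G] (k : G) : Subgroup (Wr N (G × G)) :=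
  Subgroup.closure ({x | ∃ F : G × G → N, x = ⁅Wr.base F, Wr.top N (k, (1 : G))⁆} ∪
    {Wr.top N ((1 : G), k)})

lemma comm_base_top {N G : Type} [Group N] [Group G] (F : G → N) (t : G) :
    ⁅Wr.base F, Wr.top N t⁆ = Wr.base (fun x => F x * (F (t⁻¹ * x))⁻¹) := by
  rw [commutatorElement_def]
  ext x <;> simp

section main

variable {G : Type} [Group G] {k : G}

/-- powers indexed by residues -/
noncomputable def kp (k : G) (j : ZMod (orderOf k)) : G := k ^ rep j

lemma kp_zero : kp k 0 = 1 := by simp [kp, rep_zero]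

lemma kp_succ (hk : k ≠ 1) (j : ZMod (orderOf k)) : kp k (j + 1) = k * kp k j := by
  have hm : orderOf k ≠ 1 := by rwa [Ne, orderOf_eq_one_iff]
  unfold kp
  rw [rep_succ hm j]
  split_ifs
  · rw [zpow_sub, zpow_natCast, pow_orderOf_eq_one, inv_one, mul_one, add_comm, zpow_add, zpow_one]
  · rw [sub_zero, add_comm, zpow_add, zpow_one]

lemma kp_pred (hk : k ≠ 1) (j : ZMod (orderOf k)) : kp k (j - 1) = k⁻¹ * kp k j := by
  have := kp_succ hk (j - 1)
  rw [sub_add_cancel] at this
  rw [this]; group

lemma kp_inj {i j : ZMod (orderOf k)} (h : kp k i = kp k j) : i = j := by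
  unfold kp at h
  have h1 : k ^ (rep i - rep j) = 1 := by rw [zpow_sub, h, mul_inv_cancel]
  have h2 := orderOf_dvd_iff_zpow_eq_one.2 h1
  have h3 := (ZMod.intCast_zmod_eq_zero_iff_dvd (rep i - rep j) (orderOf k)).2 h2
  push_cast at h3
  have h4 : ∀ x : ZMod (orderOf k), ((rep x : ℤ) : ZMod (orderOf k)) = x := by
    intro x
    unfold rep
    exact ZMod.intCast_zmod_cast x
  rw [h4, h4] at h3
  exact sub_eq_zero.1 h3

lemma walk_eval (hk : k ≠ 1) (a : ℕ) {N : Type} [Group N] (ν : FreeGroup (Let (orderOf k)) →* N)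
    (ψ : FreeGroup ℕ →* Wr N (G × G))
    (h1 : ∀ i, i ≠ a → (ψ (FreeGroup.of i)).t = 1)
    (h2 : ∀ i, i ≠ a → ∀ j, (ψ (FreeGroup.of i)).f (1, kp k j) = ν (FreeGroup.of (some (i, j))))
    (h3 : (ψ (FreeGroup.of a)).t = (1, k⁻¹))
    (h4 : ∀ j, (ψ (FreeGroup.of a)).f (1, kp k j) = if j = -1 then ν (FreeGroup.of none) else 1)
    (l : List (ℕ × Bool)) (j : ZMod (orderOf k)) :
    (ψ (FreeGroup.mk l)).f (1, kp k j) = ν (FreeGroup.mk (walk a j l)) ∧
    (ψ (FreeGroup.mk l)).t = (1, kp k j * (kp k (endp a j l))⁻¹) := by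
  induction l generalizing j with
  | nil =>
    refine ⟨by simp [walk, mk_nil], ?_⟩
    simp only [endp, mk_nil, map_one, Wr.one_t, mul_inv_cancel]
    rfl
  | cons p l ih =>
    obtain ⟨i, b⟩ := p
    cases b
    · simp only [walk, endp]
      by_cases hi : i = a
      · subst hi
        simp only [if_true]
        have hp := kp_pred hk j
        have e1 : ((1 : G), k⁻¹)⁻¹⁻¹ * ((1 : G), kp k j) = (1, kp k (j - 1)) := by
          rw [hp]; simp
        have h5 : (ψ (FreeGroup.of i)).f ((ψ (FreeGroup.of i)).t * (1, kp k j)) =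
            if j = 0 then ν (FreeGroup.of none) else 1 := by
          have e2 : (ψ (FreeGroup.of i)).t * (1, kp k j) = (1, kp k (j - 1)) := by
            rw [h3, hp]; simp
          rw [e2, h4]
          have e3 : (j - 1 = -1) ↔ (j = 0) := by
            constructor
            · intro h
              have := congrArg (fun z => z + 1) h
              simpa using this
            · intro h; rw [h, zero_sub]
          simp only [e3]
        have e4 : ((ψ (FreeGroup.of i))⁻¹).t⁻¹ * ((1 : G), kp k j) = (1, kp k (j - 1)) := by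
          rw [Wr.inv_t, h3]; exact e1
        constructor
        · rw [mk_cons_false, map_mul, map_inv, Wr.mul_f, e4, (ih (j - 1)).1, Wr.inv_f, h5]
          split_ifs with hj
          · rw [mk_cons_false, map_mul, map_inv]
          · rw [inv_one, one_mul]
        · rw [mk_cons_false, map_mul, map_inv, Wr.mul_t, (ih (j - 1)).2, Wr.inv_t, h3, hp]
          simp [mul_assoc]
      · rw [if_neg hi, if_neg hi]
        have h5 := h1 i hi
        constructor
        · rw [mk_cons_false, mk_cons_false, map_mul, map_mul, map_inv, map_inv, Wr.mul_f, Wr.inv_f,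
            Wr.inv_t, h5, inv_one, inv_one, one_mul, (ih j).1, h2 i hi]
        · rw [mk_cons_false, map_mul, map_inv, Wr.mul_t, Wr.inv_t, h5, (ih j).2, inv_one, one_mul]
    · simp only [walk, endp]
      by_cases hi : i = a
      · subst hi
        simp only [if_true]
        have hp := kp_succ hk j
        have e4 : ((ψ (FreeGroup.of i))).t⁻¹ * ((1 : G), kp k j) = (1, kp k (j + 1)) := by
          rw [h3, hp]; simp
        constructor
        · rw [mk_cons_true, map_mul, Wr.mul_f, e4, (ih (j + 1)).1, h4]
          split_ifs with hj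
          · rw [mk_cons_true, map_mul]
          · rw [one_mul]
        · rw [mk_cons_true, map_mul, Wr.mul_t, (ih (j + 1)).2, h3, hp]
          simp [mul_assoc]
      · rw [if_neg hi, if_neg hi]
        have h5 := h1 i hi
        constructor
        · rw [mk_cons_true, mk_cons_true, map_mul, map_mul, Wr.mul_f, h5, inv_one, one_mul,
            (ih j).1, h2 i hi]
        · rw [mk_cons_true, map_mul, Wr.mul_t, h5, (ih j).2, one_mul]

/-- the homomorphism used for the evaluation -/
lemma exists_psi (hk : k ≠ 1) (a : ℕ) {N : Type} [Group N]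
    (ν : FreeGroup (Let (orderOf k)) →* N) :
    ∃ φ : FreeGroup ℕ →* TS N k, ∀ (l : List (ℕ × Bool)) (j : ZMod (orderOf k)),
    (φ (FreeGroup.mk l)).1.f (1, kp k j) = ν (FreeGroup.mk (walk a j l)) ∧
    (φ (FreeGroup.mk l)).1.t = (1, kp k j * (kp k (endp a j l))⁻¹) := by
  classical
  let v : ℕ → ZMod (orderOf k) → N := fun i j =>
    if i = a then (if j = -1 then ν (FreeGroup.of none) else 1) else ν (FreeGroup.of (some (i, j)))
  let F : ℕ → G × G → N := fun i p =>
    if h : p.1 = 1 ∧ ∃ j, kp k j = p.2 then v i h.2.choose else 1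
  have hF : ∀ i j, F i (1, kp k j) = v i j := by
    intro i j
    have h : ((1 : G), kp k j).1 = 1 ∧ ∃ j', kp k j' = ((1 : G), kp k j).2 := ⟨rfl, j, rfl⟩
    simp only [F, dif_pos h]
    congr 1
    exact kp_inj h.2.choose_spec
  have hF' : ∀ i x, F i (k⁻¹, x) = 1 := by
    intro i x
    have h : ¬ ((k⁻¹, x).1 = (1 : G) ∧ ∃ j', kp k j' = (k⁻¹, x).2) := by
      rintro ⟨h1, _⟩
      exact hk (inv_eq_one.1 h1)
    simp only [F, dif_neg h]
  let x : ℕ → Wr N (G × G) := fun i =>
    ⁅Wr.base (F i), Wr.top N (k, (1 : G))⁆ * (if i = a then (Wr.top N ((1 : G), k))⁻¹ else 1)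
  have hx : ∀ i, x i ∈ TS N k := by
    intro i
    have m1 : ⁅Wr.base (F i), Wr.top N (k, (1 : G))⁆ ∈ TS N k :=
      Subgroup.subset_closure (Or.inl ⟨F i, rfl⟩)
    have m2 : Wr.top N ((1 : G), k) ∈ TS N k := Subgroup.subset_closure (Or.inr rfl)
    refine Subgroup.mul_mem _ m1 ?_
    split_ifs
    · exact Subgroup.inv_mem _ m2
    · exact Subgroup.one_mem _
  let φ : FreeGroup ℕ →* TS N k := FreeGroup.lift fun i => ⟨x i, hx i⟩
  refine ⟨φ, fun l j => ?_⟩
  have hval : ∀ i j, (x i).f (1, kp k j) = v i j := by
    intro i j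
    have e : (k, (1 : G))⁻¹ * ((1 : G), kp k j) = (k⁻¹, kp k j) := by simp
    simp only [x, comm_base_top]
    rw [Wr.mul_f, Wr.base_f, Wr.base_t, hF, e, hF', inv_one, inv_one, one_mul]
    split_ifs
    · rw [Wr.inv_f, Wr.top_f, inv_one, mul_one, mul_one]
    · simp
  refine walk_eval hk a ν ((TS N k).subtype.comp φ) ?_ ?_ ?_ ?_ l j
  · intro i hi
    simp [φ, x, comm_base_top, hi]
  · intro i hi j
    have h1 : ((TS N k).subtype.comp φ) (FreeGroup.of i) = x i := by simp [φ]
    rw [h1, hval]
    simp [v, hi]
  · simp [φ, x, comm_base_top]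
  · intro j
    have h1 : ((TS N k).subtype.comp φ) (FreeGroup.of a) = x a := by simp [φ]
    rw [h1, hval]
    simp [v]

/-- flipping the sign of a letter -/
def flp (a : ℕ) (l : List (ℕ × Bool)) : List (ℕ × Bool) :=
  l.map (fun p => (p.1, if p.1 = a then !p.2 else p.2))

def flh (a : ℕ) : FreeGroup ℕ →* FreeGroup ℕ :=
  FreeGroup.lift (fun i => if i = a then (FreeGroup.of i)⁻¹ else FreeGroup.of i)

lemma mk_flp (a : ℕ) (l : List (ℕ × Bool)) :
    FreeGroup.mk (flp a l) = flh a (FreeGroup.mk l) := by
  induction l with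
  | nil => simp [flp, mk_nil]
  | cons p l ih =>
    obtain ⟨i, b⟩ := p
    have e : flp a ((i, b) :: l) = (i, if i = a then !b else b) :: flp a l := rfl
    rw [e]
    by_cases hi : i = a
    · cases b
      · simp only [hi, if_true, Bool.not_false]
        rw [mk_cons_true, mk_cons_false, ih, map_mul, map_inv]
        simp [flh]
      · simp only [hi, if_true, Bool.not_true]
        rw [mk_cons_true, mk_cons_false, ih, map_mul]
        simp [flh]
    · cases b
      · simp only [hi, if_false]
        rw [mk_cons_false, mk_cons_false, ih, map_mul, map_inv]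
        simp [flh, hi]
      · simp only [hi, if_false]
        rw [mk_cons_true, mk_cons_true, ih, map_mul]
        simp [flh, hi]

lemma flh_flh (a : ℕ) (w : FreeGroup ℕ) : flh a (flh a w) = w := by
  have : (flh a).comp (flh a) = MonoidHom.id _ := by
    apply FreeGroup.ext_hom
    intro i
    by_cases hi : i = a <;> simp [flh, hi]
  exact DFunLike.congr_fun this w

lemma flp_length (a : ℕ) (l : List (ℕ × Bool)) : (flp a l).length = l.length := by simp [flp]

/-- a word can be replaced by one which begins with a positive letter -/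
lemma exists_pos {P : FreeGroup ℕ → Prop} (hP : ∀ a w, P w → P (flh a w)) (l : List (ℕ × Bool))
    (hl : FreeGroup.mk l ≠ 1) (h : P (FreeGroup.mk l)) :
    ∃ (a : ℕ) (l' : List (ℕ × Bool)), l'.length + 1 = l.length ∧
      FreeGroup.mk ((a, true) :: l') ≠ 1 ∧ P (FreeGroup.mk ((a, true) :: l')) := by
  cases l with
  | nil => exact absurd mk_nil hl
  | cons p l =>
    obtain ⟨a, b⟩ := p
    cases b
    · have e : flp a ((a, false) :: l) = (a, true) :: flp a l := by simp [flp]
      refine ⟨a, flp a l, by simp [flp], ?_, ?_⟩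
      · rw [← e, mk_flp]
        intro h1
        apply hl
        have := congrArg (flh a) h1
        rwa [flh_flh, map_one] at this
      · rw [← e, mk_flp]
        exact hP _ _ h
    · exact ⟨a, l, rfl, hl, h⟩

lemma countable_zmod (m : ℕ) : Countable (ZMod m) := by
  cases m with
  | zero => exact (inferInstance : Countable ℤ)
  | succ n => exact (inferInstance : Countable (Fin (n + 1)))

/-- The descent lemma: an identity of the subgroups `TS N k` gives a shorter identity of the
groups `N`. -/
theorem descent (𝒩 : Cls) (hne : ∃ (N : Type) (_ : Group N), 𝒩 N) (hk : k ≠ 1)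
    (l : List (ℕ × Bool)) (hl : FreeGroup.mk l ≠ 1)
    (hyp : ∀ (N : Type) [Group N], 𝒩 N → ∀ φ : FreeGroup ℕ →* TS N k, φ (FreeGroup.mk l) = 1) :
    ∃ l₀ : List (ℕ × Bool), l₀.length < l.length ∧ FreeGroup.mk l₀ ≠ 1 ∧
      Sat 𝒩 (FreeGroup.mk l₀) := by
  obtain ⟨a, l', hlen, hne', hyp'⟩ := exists_pos
    (P := fun w => ∀ (N : Type) [Group N], 𝒩 N → ∀ φ : FreeGroup ℕ →* TS N k, φ w = 1)
    (fun a w h N _ hN φ => h N hN (φ.comp (flh a))) l hl hyp
  have hm : orderOf k ≠ 1 := by rwa [Ne, orderOf_eq_one_iff]
  have hc : Countable (ZMod (orderOf k)) := countable_zmod _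
  obtain ⟨e, he⟩ := exists_injective_nat (Let (orderOf k))
  -- the end position is zero
  have hend : endp a (0 : ZMod (orderOf k)) ((a, true) :: l') = 0 := by
    obtain ⟨N, iN, hN⟩ := hne
    obtain ⟨φ, hφ⟩ := exists_psi hk a (1 : FreeGroup (Let (orderOf k)) →* N)
    have h1 := (hφ ((a, true) :: l') 0).2
    rw [hyp' N hN φ] at h1
    have h2 : (1 : G) = kp k 0 * (kp k (endp a 0 ((a, true) :: l')))⁻¹ := congrArg Prod.snd h1
    rw [kp_zero, one_mul] at h2
    apply kp_inj
    rw [kp_zero, ← inv_inv (kp k _), ← h2, inv_one]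
  refine ⟨(walk a (0 : ZMod (orderOf k)) ((a, true) :: l')).map (fun p => (e p.1, p.2)), ?_, ?_, ?_⟩
  · rw [List.length_map, ← hlen]
    simp only [walk, if_true, if_neg (zero_ne_neg_one hm)]
    have := walk_length a ((0 : ZMod (orderOf k)) + 1) l'
    omega
  · intro h1
    rw [← FreeGroup.map.mk] at h1
    have h2 : FreeGroup.mk (walk a (0 : ZMod (orderOf k)) ((a, true) :: l')) = 1 := by
      apply FreeGroup.map_injective he
      rw [map_one]
      exact h1
    have h3 := bck_walk a hm ((a, true) :: l') (0 : ZMod (orderOf k))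
    rw [h2, hend, rep_zero, zpow_zero, inv_one, mul_one, one_mul, map_one] at h3
    exact hne' h3.symm
  · intro N _ hN ν₀
    obtain ⟨φ, hφ⟩ := exists_psi hk a (ν₀.comp (FreeGroup.map e))
    have h1 := (hφ ((a, true) :: l') 0).1
    rw [hyp' N hN φ] at h1
    rw [← FreeGroup.map.mk]
    exact h1.symm

end main

end Pool.Agent.Helper429.QV
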