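import Mathlib
import Pool.Agent.Helper429.QV.Ide

set_option autoImplicit false

namespace Pool.Agent.Helper429.QV

/-- integer valued functions as elements of the base group -/
def bz {C : Type} [Group C] (f : C → ℤ) : Wr (Multiplicative ℤ) C :=
  Wr.base (fun x => Multiplicative.ofAdd (f x))

lemma bz_add {C : Type} [Group C] (f g : C → ℤ) : bz (f + g) = bz f * bz g := by
  ext x <;> simp [bz]

lemma bz_zero {C : Type} [Group C] : bz (0 : C → ℤ) = 1 := by
  ext x <;> simp [bz]

lemma bz_neg {C : Type} [Group C] (f : C → ℤ) : bz (-f) = (bz f)⁻¹ := by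
  ext x <;> simp [bz]

/-- The integer valued functions in the residual of the wreath product. -/
def J (Y : Cls) (C : Type) [Group C] : AddSubgroup (C → ℤ) where
  carrier := {f | bz f ∈ res Y (Wr (Multiplicative ℤ) C)}
  zero_mem' := by
    change bz (0 : C → ℤ) ∈ res Y (Wr (Multiplicative ℤ) C)
    rw [bz_zero]; exact Subgroup.one_mem _
  add_mem' := by
    intro a b ha hb
    change bz (a + b) ∈ res Y (Wr (Multiplicative ℤ) C)
    rw [bz_add]; exact Subgroup.mul_mem _ ha hb
  neg_mem' := by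
    intro a ha
    change bz (-a) ∈ res Y (Wr (Multiplicative ℤ) C)
    rw [bz_neg]; exact Subgroup.inv_mem _ ha

lemma mem_J {Y : Cls} {C : Type} [Group C] {f : C → ℤ} :
    f ∈ J Y C ↔ bz f ∈ res Y (Wr (Multiplicative ℤ) C) := Iff.rfl

lemma J_translate {Y : Cls} {C : Type} [Group C] {f : C → ℤ} (hf : f ∈ J Y C) (t : C) :
    (fun x => f (t⁻¹ * x)) ∈ J Y C := by
  rw [mem_J] at *
  have h := (inferInstance : (res Y (Wr (Multiplicative ℤ) C)).Normal).conj_mem _ hf
    (Wr.top (Multiplicative ℤ) t)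
  have e : Wr.top (Multiplicative ℤ) t * bz f * (Wr.top (Multiplicative ℤ) t)⁻¹ =
      bz (fun x => f (t⁻¹ * x)) := by
    ext x <;> simp [bz]
  rwa [e] at h

lemma J_transfer {Y : Cls} {C C' : Type} [Group C] [Group C'] (ρ : C →* C') (pr : C' → C)
    (hpr : ∀ t q, pr (ρ t * q) = t * pr q) (h : C' → ℤ) (hh : ∀ t q, h (ρ t * q) = h q)
    {f : C → ℤ} (hf : f ∈ J Y C) : (fun q => f (pr q) * h q) ∈ J Y C' := by
  let Θ : Wr (Multiplicative ℤ) C →* Wr (Multiplicative ℤ) C' :=
    { toFun := fun x => ⟨fun q => (x.f (pr q)) ^ (h q), ρ x.t⟩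
      map_one' := by ext x <;> simp
      map_mul' := by
        intro x y
        ext q
        · have e1 : pr ((ρ x.t)⁻¹ * q) = x.t⁻¹ * pr q := by rw [← map_inv, hpr]
          have e2 : h ((ρ x.t)⁻¹ * q) = h q := by rw [← map_inv, hh]
          simp only [Wr.mul_f, mul_zpow, e1, e2]
        · simp }
  have h1 := map_res Θ (mem_J.1 hf)
  have e : Θ (bz f) = bz (fun q => f (pr q) * h q) := by
    ext q
    · simp [Θ, bz, mul_comm]
    · simp [Θ, bz]
  rwa [e] at h1

/-- `m` times the indicator function of a non-empty set lies in the residual. -/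
def Good (Y : Cls) (m : ℤ) : Prop :=
  ∃ (C : Type) (_ : Group C) (D : Set C), Y C ∧ D.Nonempty ∧ D.indicator (fun _ => m) ∈ J Y C

lemma elim {Y : Cls} (hY : Closed Y) {T : Type} [Group T] (hT : Y T) (k : ℤ)
    (hU : ∀ u : T, u ≠ 1 → ∃ (S : Type) (_ : Group S) (H : S → ℤ) (ι : Type) (_ : Fintype ι)
      (ψ : ι → (T →* S)) (D : Set S) (R : S → ℤ), Y S ∧ D.Nonempty ∧
      ∀ y, ∑ a, (H ((ψ a u)⁻¹ * y) - H y) = D.indicator (fun _ => (1 : ℤ)) y + k * R y)
    (s : Finset T) : ∀ j ∈ s, ∀ (C₀ : Type) [Group C₀] (D₀ : Set C₀) (m : ℤ) (h : T → C₀ → ℤ),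
      Y C₀ → D₀.Nonempty → D₀.indicator (fun _ => k) ∈ J Y C₀ →
      h j = D₀.indicator (fun _ => m) →
      (open Classical in fun p : C₀ × T => if p.2 ∈ s then h p.2 p.1 else 0) ∈ J Y (C₀ × T) →
      Good Y m := by
  classical
  induction s using Finset.strongInduction with
  | H s ih =>
    intro j hj C₀ _ D₀ m h hC₀ hD₀ hk hhj hmem
    by_cases hs : ∃ l ∈ s, l ≠ j
    · obtain ⟨l, hl, hlj⟩ := hs
      have hu : l⁻¹ * j ≠ 1 := by
        intro h1
        rw [inv_mul_eq_one] at h1
        exact hlj h1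
      obtain ⟨S, iS, H, ι, iι, ψ, D, R, hS, hD, hsum⟩ := hU _ hu
      -- the twisted functions
      have hF : ∀ χ : T →* S, (fun p : (C₀ × S) × T =>
          (if p.2 ∈ s then h p.2 p.1.1 else 0) * H ((χ p.2)⁻¹ * p.1.2)) ∈ J Y ((C₀ × S) × T) := by
        intro χ
        exact J_transfer
          (ρ := ((MonoidHom.fst C₀ T).prod (χ.comp (MonoidHom.snd C₀ T))).prod (MonoidHom.snd C₀ T))
          (pr := fun p : (C₀ × S) × T => (p.1.1, p.2))
          (by intro t q; rfl)
          (fun p => H ((χ p.2)⁻¹ * p.1.2))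
          (by
            intro t q
            change H ((χ (t.2 * q.2))⁻¹ * (χ t.2 * q.1.2)) = H ((χ q.2)⁻¹ * q.1.2)
            congr 1
            rw [map_mul]; group)
          hmem
      have hG : ∀ a : ι, (fun p : (C₀ × S) × T => (if p.2 ∈ s then h p.2 p.1.1 else 0) *
          (H ((ψ a (l⁻¹ * p.2))⁻¹ * p.1.2) - H p.1.2)) ∈ J Y ((C₀ × S) × T) := by
        intro a
        have h1 := J_translate (hF (ψ a)) (((1 : C₀), (ψ a l)⁻¹), (1 : T))
        have h2 := hF 1
        have h3 := (J Y ((C₀ × S) × T)).sub_mem h1 h2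
        convert h3 using 1
        funext p
        simp only [Pi.sub_apply, Prod.fst_mul, Prod.snd_mul, Prod.fst_inv, Prod.snd_inv, inv_one,
          one_mul, inv_inv, MonoidHom.one_apply]
        rw [mul_sub]
        congr 3
        rw [map_mul, map_inv]; group
      have hsumm : (∑ a : ι, fun p : (C₀ × S) × T => (if p.2 ∈ s then h p.2 p.1.1 else 0) *
          (H ((ψ a (l⁻¹ * p.2))⁻¹ * p.1.2) - H p.1.2)) ∈ J Y ((C₀ × S) × T) :=
        AddSubgroup.sum_mem _ (fun a _ => hG a)
      have hcorr : (fun p : (C₀ × S) × T => D₀.indicator (fun _ => k) p.1.1 *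
          (m * R p.1.2 * if p.2 = j then 1 else 0)) ∈ J Y ((C₀ × S) × T) :=
        J_transfer (ρ := ((MonoidHom.id C₀).prod 1).prod 1)
          (pr := fun p : (C₀ × S) × T => p.1.1) (by intro t q; rfl)
          (fun p => m * R p.1.2 * if p.2 = j then 1 else 0)
          (by
            intro t q
            simp) hk
      have hk' : (D₀ ×ˢ D).indicator (fun _ => k) ∈ J Y (C₀ × S) := by
        have h1 := J_transfer (Y := Y) (ρ := (MonoidHom.id C₀).prod (1 : C₀ →* S))
          (pr := fun p : C₀ × S => p.1) (by intro t q; rfl)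
          (fun p => D.indicator (fun _ => (1 : ℤ)) p.2) (by intro t q; simp) hk
        convert h1 using 1
        funext p
        by_cases h2 : p.1 ∈ D₀ <;> by_cases h3 : p.2 ∈ D <;>
          simp [Set.indicator, h2, h3]
      refine ih (s.erase l) (Finset.erase_ssubset hl) j (Finset.mem_erase.2 ⟨hlj.symm, hj⟩)
        (C₀ × S) (D₀ ×ˢ D) m (fun x p => if x = j then (D₀ ×ˢ D).indicator (fun _ => m) p else
          h x p.1 * ∑ a, (H ((ψ a (l⁻¹ * x))⁻¹ * p.2) - H p.2)) (hY.prod hC₀ hS)
        (hD₀.prod hD) hk' (by funext p; simp) ?_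
      have h4 := (J Y ((C₀ × S) × T)).sub_mem hsumm hcorr
      convert h4 using 1
      funext p
      simp only [Pi.sub_apply, Finset.sum_apply, ← Finset.mul_sum]
      by_cases hx : p.2 = j
      · have hx' : p.2 ∈ s := by rw [hx]; exact hj
        have hx'' : p.2 ∈ s.erase l := by rw [hx]; exact Finset.mem_erase.2 ⟨hlj.symm, hj⟩
        rw [if_pos hx'', if_pos hx, if_pos hx', if_pos hx, hx, hsum, hhj]
        by_cases h2 : p.1.1 ∈ D₀ <;> by_cases h3 : p.1.2 ∈ D <;>
          simp [Set.indicator, h2, h3]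
        · ring
        · ring
      · rw [if_neg hx, if_neg hx, mul_zero, mul_zero, sub_zero]
        by_cases hxl : p.2 = l
        · rw [if_neg (by rw [hxl]; exact Finset.notMem_erase l s), hxl, inv_mul_cancel]
          simp
        · by_cases hxs : p.2 ∈ s
          · rw [if_pos (Finset.mem_erase.2 ⟨hxl, hxs⟩), if_pos hxs]
          · rw [if_neg (fun h => hxs (Finset.mem_of_mem_erase h)), if_neg hxs, zero_mul]
    · push Not at hs
      refine ⟨C₀ × T, inferInstance, D₀ ×ˢ {j}, hY.prod hC₀ hT, hD₀.prod (Set.singleton_nonempty j),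
        ?_⟩
      convert hmem using 1
      funext p
      by_cases hx : p.2 = j
      · rw [if_pos (by rw [hx]; exact hj), hx, hhj]
        by_cases h2 : p.1 ∈ D₀ <;> simp [Set.indicator, h2, hx]
      · rw [if_neg (fun h => hx (hs p.2 h))]
        simp [Set.indicator, hx]

end Pool.Agent.Helper429.QV
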