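import Mathlib
import Pool.Agent.Helper429.QV.Ind

set_option autoImplicit false

namespace Pool.Agent.Helper429.QV

lemma Good.neg {Y : Cls} {m : ℤ} (h : Good Y m) : Good Y (-m) := by
  obtain ⟨C, iC, D, hC, hD, h⟩ := h
  refine ⟨C, iC, D, hC, hD, ?_⟩
  have := (J Y C).neg_mem h
  convert this using 1
  funext x
  by_cases hx : x ∈ D <;> simp [Set.indicator, hx]

lemma mult_pow_eq_one {x : Multiplicative ℤ} {n : ℕ} (hn : 0 < n) (h : x ^ n = 1) : x = 1 := by
  have h1 : n • Multiplicative.toAdd x = 0 := congrArg Multiplicative.toAdd h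
  rcases smul_eq_zero.1 h1 with h2 | h2
  · omega
  · exact congrArg Multiplicative.ofAdd h2

lemma exists_good {Y : Cls} (hY : Closed Y) {w : FreeGroup ℕ} (hw : w ≠ 1) (hs : Sat Y w) :
    ∃ m : ℤ, m ≠ 0 ∧ Good Y m := by
  classical
  let X : Cls := fun T _ => Y T ∧ ∀ (g : T) (n : ℕ), 0 < n → g ^ n = 1 → g = 1
  have hX : SP X := by
    refine ⟨?_, ?_⟩
    · intro G H _ _ f hf hG
      refine ⟨hY.inj f hf hG.1, fun g n hn hg => hf ?_⟩
      rw [map_one]
      exact hG.2 (f g) n hn (by rw [← map_pow, hg, map_one])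
    · intro ι G _ hG
      refine ⟨hY.pi G (fun i => (hG i).1), fun g n hn hg => ?_⟩
      funext i
      exact (hG i).2 (g i) n hn (congrFun hg i)
  have h1 : ∃ (T : Type) (_ : Group T), X T ∧ ¬ X (Rw ℤ T) := by
    by_contra hcon
    push Not at hcon
    exact no_identity hX ℤ (q := 1) one_ne_zero (fun T _ hT => hcon T inferInstance hT) hw
      (fun G _ hG φ => hs G hG.1 φ)
  obtain ⟨T, iT, hT, hR⟩ := h1
  have h2 : ¬ Y (Rw ℤ T) := by
    intro h3
    apply hR
    refine ⟨h3, fun g n hn hg => ?_⟩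
    have hg' : (g : Wr (Multiplicative ℤ) T) ^ n = 1 := congrArg Subtype.val hg
    have h4 : (g : Wr (Multiplicative ℤ) T).t = 1 := by
      apply hT.2 _ n hn
      have := congrArg (Wr.topHom (Multiplicative ℤ) T) hg'
      rwa [map_pow, map_one] at this
    have h5 : (g : Wr (Multiplicative ℤ) T) = Wr.base (g : Wr (Multiplicative ℤ) T).f := by
      ext x
      · simp
      · simp [h4]
    apply Subtype.ext
    rw [h5, ← map_pow] at hg'
    ext x
    · have h6 : ((g : Wr (Multiplicative ℤ) T).f x) ^ n = 1 := congrArg (fun z => z.f x) hg'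
      exact mult_pow_eq_one hn h6
    · exact h4
  have h3 : ∃ g ∈ res Y (Rw ℤ T), g ≠ 1 := by
    by_contra hcon
    push Not at hcon
    exact h2 (hY.of_res hcon)
  obtain ⟨g, hg, hg1⟩ := h3
  have h4 : (g : Wr (Multiplicative ℤ) T) ∈ res Y (Wr (Multiplicative ℤ) T) :=
    map_res (Rw ℤ T).subtype hg
  have h5 : (g : Wr (Multiplicative ℤ) T).t = 1 := res_eq_one hT.1 (map_res (Wr.topHom _ _) h4)
  let f : T → ℤ := fun x => Multiplicative.toAdd ((g : Wr (Multiplicative ℤ) T).f x)
  have h6 : bz f = (g : Wr (Multiplicative ℤ) T) := by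
    ext x
    · simp [bz, f]
    · simp [bz, h5]
  have h7 : f ∈ J Y T := by rw [mem_J, h6]; exact h4
  have h8 : ∃ j, f j ≠ 0 := by
    by_contra hcon
    push Not at hcon
    apply hg1
    apply Subtype.ext
    rw [← h6, show f = 0 from funext hcon, bz_zero]; rfl
  obtain ⟨j, hj⟩ := h8
  let s : Finset T := (mem_Rw.1 g.2).toFinset
  have hsm : ∀ x, x ∈ s ↔ f x ≠ 0 := by
    intro x
    rw [Set.Finite.mem_toFinset]
    exact Iff.rfl
  refine ⟨f j, hj, ?_⟩
  refine elim hY hT.1 0 ?_ s j ((hsm j).2 hj) Unit Set.univ (f j) (fun x _ => f x)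
    (hY.triv (fun _ => rfl)) Set.univ_nonempty ?_ ?_ ?_
  · intro u hu
    refine ⟨T, iT, fun y => if ∃ n : ℕ, y = u ^ n then -1 else 0, Unit, inferInstance,
      fun _ => MonoidHom.id T, {1}, 0, hT.1, Set.singleton_nonempty _, ?_⟩
    intro y
    have hu' : ∀ n : ℕ, 0 < n → u ^ n ≠ 1 := fun n hn h => hu (hT.2 u n hn h)
    have e1 : (∃ n : ℕ, u⁻¹ * y = u ^ n) ↔ ∃ n : ℕ, y = u ^ (n + 1) := by
      constructor
      · rintro ⟨n, hn⟩
        exact ⟨n, by rw [pow_succ', ← hn]; group⟩
      · rintro ⟨n, hn⟩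
        exact ⟨n, by rw [hn, pow_succ']; group⟩
    simp only [Finset.univ_unique, Finset.sum_const, Finset.card_singleton, one_smul,
      MonoidHom.id_apply, e1, Pi.zero_apply, mul_zero, add_zero]
    by_cases hy : y = 1
    · subst hy
      have h9 : ¬ ∃ n : ℕ, (1 : T) = u ^ (n + 1) := by
        rintro ⟨n, hn⟩
        exact hu' (n + 1) (Nat.succ_pos n) hn.symm
      have h10 : ∃ n : ℕ, (1 : T) = u ^ n := ⟨0, by simp⟩
      rw [if_neg h9, if_pos h10]
      simp
    · have h9 : (∃ n : ℕ, y = u ^ (n + 1)) ↔ ∃ n : ℕ, y = u ^ n := by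
        constructor
        · rintro ⟨n, hn⟩; exact ⟨n + 1, hn⟩
        · rintro ⟨n, hn⟩
          cases n with
          | zero => exact absurd (by simpa using hn) hy
          | succ n => exact ⟨n, hn⟩
      simp only [h9, sub_self]
      rw [Set.indicator_of_notMem]
      exact hy
  · simp only [Set.indicator_univ]
    exact (J Y Unit).zero_mem
  · funext x
    simp
  · have h9 := J_transfer (Y := Y) (ρ := (1 : T →* Unit).prod (MonoidHom.id T))
      (pr := fun p : Unit × T => p.2) (by intro t q; rfl) (fun _ => 1) (by intro t q; rfl) h7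
    convert h9 using 1
    funext p
    by_cases hp : p.2 ∈ s
    · rw [if_pos hp, mul_one]
    · rw [if_neg hp, mul_one]
      by_contra hne
      exact hp ((hsm _).2 (fun h => hne h.symm))

lemma good_one {Y : Cls} (hY : Closed Y) {w : FreeGroup ℕ} (hw : w ≠ 1) (hs : Sat Y w) :
    Good Y 1 := by
  classical
  obtain ⟨m, hm, hg⟩ := exists_good hY hw hs
  have hex : ∃ k : ℕ, 0 < k ∧ Good Y k := by
    refine ⟨m.natAbs, Int.natAbs_pos.2 hm, ?_⟩
    rcases Int.natAbs_eq m with h | h
    · rwa [← h]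
    · have : (m.natAbs : ℤ) = -m := by omega
      rw [this]; exact hg.neg
  obtain ⟨k, ⟨hk0, hk⟩, hmin⟩ : ∃ k : ℕ, (0 < k ∧ Good Y k) ∧
      ∀ v : ℕ, 0 < v → v < k → ¬ Good Y v :=
    ⟨Nat.find hex, Nat.find_spec hex, fun v h1 h2 h3 => Nat.find_min hex h2 ⟨h1, h3⟩⟩
  by_cases hk1 : k = 1
  · subst hk1; exact_mod_cast hk
  exfalso
  have hk2 : 2 ≤ k := by omega
  obtain ⟨C₀, iC, D₀, hC₀, hD₀, hk⟩ := hk
  have : NeZero k := ⟨by omega⟩
  have : Fact (1 < k) := ⟨by omega⟩
  have key : ∀ (T : Type) [Group T], Y T → Y (Rw (ZMod k) T) := by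
    intro T _ hT
    let F : Rw (ZMod k) T → (C₀ × T → ℤ) := fun x p =>
      D₀.indicator (fun _ => (1 : ℤ)) p.1 * ((Multiplicative.toAdd (x.1.f p.2)).val : ℤ)
    let el : Rw (ZMod k) T → Wr (Multiplicative ℤ) (C₀ × T) := fun x =>
      ⟨fun p => Multiplicative.ofAdd (F x p), ((1 : C₀), x.1.t)⟩
    have hmul : ∀ x y, ∃ g ∈ J Y (C₀ × T), el x * el y = bz g * el (x * y) := by
      intro x y
      let q : T → ℤ := fun τ => (((Multiplicative.toAdd (x.1.f τ)).val : ℤ) +
        ((Multiplicative.toAdd (y.1.f (x.1.t⁻¹ * τ))).val : ℤ) -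
        ((Multiplicative.toAdd ((x * y).1.f τ)).val : ℤ)) / k
      have hq : ∀ τ, (k : ℤ) * q τ = ((Multiplicative.toAdd (x.1.f τ)).val : ℤ) +
        ((Multiplicative.toAdd (y.1.f (x.1.t⁻¹ * τ))).val : ℤ) -
        ((Multiplicative.toAdd ((x * y).1.f τ)).val : ℤ) := by
        intro τ
        apply Int.mul_ediv_cancel'
        rw [← ZMod.intCast_zmod_eq_zero_iff_dvd]
        push_cast
        rw [ZMod.natCast_zmod_val, ZMod.natCast_zmod_val, ZMod.natCast_zmod_val]
        rw [Wr.mul_f, toAdd_mul, sub_self]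
      refine ⟨fun p => D₀.indicator (fun _ => (k : ℤ)) p.1 * q p.2, ?_, ?_⟩
      · exact J_transfer (Y := Y) (ρ := (MonoidHom.id C₀).prod (1 : C₀ →* T))
          (pr := fun p : C₀ × T => p.1) (by intro t q; rfl) (fun p => q p.2)
          (by intro t q; simp) hk
      · ext p
        · simp only [el, bz, Wr.mul_f, Wr.base_f, Wr.base_t, inv_one, one_mul,
            Prod.inv_mk, F, Prod.fst_mul, Prod.snd_mul]
          rw [← ofAdd_add, ← ofAdd_add]
          rw [EmbeddingLike.apply_eq_iff_eq, EmbeddingLike.apply_eq_iff_eq]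
          have := hq p.2
          by_cases hp : p.1 ∈ D₀
          · simp only [Set.indicator_of_mem hp, one_mul]
            linarith
          · simp only [Set.indicator_of_notMem hp, zero_mul]
        · simp [el, bz]
        · simp [el, bz]
    let Λ : Rw (ZMod k) T →* (Wr (Multiplicative ℤ) (C₀ × T)) ⧸
        (res Y (Wr (Multiplicative ℤ) (C₀ × T))) :=
      MonoidHom.mk' (fun x => QuotientGroup.mk' _ (el x)) (by
        intro x y
        obtain ⟨g, hg, e⟩ := hmul x y
        rw [← map_mul, e, map_mul]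
        have : QuotientGroup.mk' (res Y (Wr (Multiplicative ℤ) (C₀ × T))) (bz g) = 1 :=
          (QuotientGroup.eq_one_iff _).2 hg
        rw [this, one_mul])
    refine hY.inj Λ ?_ (hY.quot_res _)
    rw [injective_iff_map_eq_one]
    intro x hx
    have hx1 : el x ∈ res Y (Wr (Multiplicative ℤ) (C₀ × T)) := (QuotientGroup.eq_one_iff _).1 hx
    have hxt : x.1.t = 1 := by
      have := res_eq_one (hY.prod hC₀ hT) (map_res (Wr.topHom _ _) hx1)
      exact congrArg Prod.snd this
    have hxJ : F x ∈ J Y (C₀ × T) := by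
      rw [mem_J]
      have : bz (F x) = el x := by
        ext p
        · simp [bz, el]
        · simp [bz, el]
        · simp [bz, el, hxt]
      rw [this]; exact hx1
    by_contra hne
    have h8 : ∃ j, x.1.f j ≠ 1 := by
      by_contra hcon
      push Not at hcon
      apply hne
      apply Subtype.ext
      ext y
      · exact hcon y
      · exact hxt
    obtain ⟨j, hj⟩ := h8
    let s : Finset T := (mem_Rw.1 x.2).toFinset
    have hsm : ∀ y, y ∈ s ↔ x.1.f y ≠ 1 := by
      intro y
      rw [Set.Finite.mem_toFinset]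
      exact Iff.rfl
    have hv0 : 0 < (Multiplicative.toAdd (x.1.f j)).val := by
      rw [Nat.pos_iff_ne_zero, Ne, ZMod.val_eq_zero]
      intro h
      exact hj h
    have hvk : (Multiplicative.toAdd (x.1.f j)).val < k := ZMod.val_lt _
    apply hmin _ hv0 hvk
    refine elim hY hT k ?_ s j ((hsm j).2 hj) C₀ D₀ _
      (fun y c => D₀.indicator (fun _ => (1 : ℤ)) c * ((Multiplicative.toAdd (x.1.f y)).val : ℤ))
      hC₀ hD₀ hk ?_ ?_
    · intro u hu
      refine ⟨Fin k → T, inferInstance, fun y => if y = 1 then 1 else 0, Fin k, inferInstance,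
        fun a => MonoidHom.mulSingle (fun _ => T) a,
        Set.range fun a : Fin k => Pi.mulSingle a u, fun y => if y = 1 then -1 else 0,
        hY.pi _ (fun _ => hT), ⟨_, ⟨0, rfl⟩⟩, ?_⟩
      intro y
      have e1 : ∀ a : Fin k, ((MonoidHom.mulSingle (fun _ : Fin k => T) a u)⁻¹ * y = 1) ↔
          y = Pi.mulSingle a u := by
        intro a
        rw [inv_mul_eq_one]
        exact eq_comm
      simp only [e1, Finset.sum_sub_distrib, Finset.sum_const, Finset.card_univ, Fintype.card_fin]
      have e2 : ∑ a : Fin k, (if y = Pi.mulSingle a u then (1 : ℤ) else 0) =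
          (Set.range fun a : Fin k => (Pi.mulSingle a u : Fin k → T)).indicator (fun _ => 1) y := by
        by_cases hy : y ∈ Set.range fun a : Fin k => (Pi.mulSingle a u : Fin k → T)
        · rw [Set.indicator_of_mem hy]
          obtain ⟨b, rfl⟩ := hy
          rw [Finset.sum_eq_single b]
          · simp
          · intro a _ hab
            rw [if_neg]
            intro h
            have h1 := congrFun h b
            simp only [Pi.mulSingle_eq_same] at h1
            rw [Pi.mulSingle_eq_of_ne hab.symm] at h1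
            exact hu h1
          · intro h; exact absurd (Finset.mem_univ b) h
        · rw [Set.indicator_of_notMem hy]
          apply Finset.sum_eq_zero
          intro a _
          rw [if_neg]
          intro h
          exact hy ⟨a, h.symm⟩
      rw [e2]
      by_cases hy : y = 1
      · simp [hy, sub_eq_add_neg]
      · simp [hy]
    · funext c
      by_cases hc : c ∈ D₀ <;> simp [Set.indicator, hc]
    · convert hxJ using 1
      funext p
      by_cases hp : p.2 ∈ s
      · rw [if_pos hp]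
      · rw [if_neg hp]
        have : x.1.f p.2 = 1 := by
          by_contra h
          exact hp ((hsm _).2 h)
        simp [F, this]
  exact no_identity hY.sp (ZMod k) (q := 1) one_ne_zero key hw hs

end Pool.Agent.Helper429.QV
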