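import Mathlib
import Pool.Agent.Helper429.QV.LemB

set_option autoImplicit false

namespace Pool.Agent.Helper429.QV

open scoped commutatorElement

lemma TS_le {Y : Cls} {B : Type} [Group B] {k : B} (hk : k ∈ res Y B) (N : Type) [Group N] :
    TS N k ≤ res Y (Wr N (B × B)) := by
  have h1 : Wr.top N (k, (1 : B)) ∈ res Y (Wr N (B × B)) :=
    map_res ((Wr.top N (G := B × B)).comp (MonoidHom.inl B B)) hk
  have h2 : Wr.top N ((1 : B), k) ∈ res Y (Wr N (B × B)) :=
    map_res ((Wr.top N (G := B × B)).comp (MonoidHom.inr B B)) hk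
  rw [TS, Subgroup.closure_le]
  rintro x (⟨F, rfl⟩ | hx)
  · rw [commutatorElement_def]
    exact Subgroup.mul_mem _
      ((inferInstance : (res Y (Wr N (B × B))).Normal).conj_mem _ h1 _) (Subgroup.inv_mem _ h1)
  · rw [Set.mem_singleton_iff] at hx
    rw [hx]; exact h2

lemma shorter {X Y X' Y' : Cls} (hX : Closed X) (hY : Closed Y) (hX' : Closed X')
    (hY' : Closed Y') (hXY : ∀ (G : Type) [Group G], mulCls X Y G → mulCls X' Y' G)
    {B : Type} [Group B] (hB : Y B) (hB' : ¬ Y' B)
    (l : List (ℕ × Bool)) (hl : FreeGroup.mk l ≠ 1) (hs : Sat X' (FreeGroup.mk l)) :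
    ∃ l₀ : List (ℕ × Bool), l₀.length < l.length ∧ FreeGroup.mk l₀ ≠ 1 ∧
      Sat X (FreeGroup.mk l₀) := by
  have h1 : ∃ k ∈ res Y' B, k ≠ 1 := by
    by_contra hcon
    push Not at hcon
    exact hB' (hY'.of_res hcon)
  obtain ⟨k, hk, hk1⟩ := h1
  refine descent X ⟨Unit, inferInstance, hX.triv (fun _ => rfl)⟩ hk1 l hl ?_
  intro N _ hN φ
  have h2 : mulCls X' Y' (Wr N (B × B)) := hXY _ (wr_mem hX hY hN (hY.prod hB hB))
  rw [mulCls_iff hX' hY'] at h2
  have h3 := hs _ h2 ((Subgroup.inclusion (TS_le hk N)).comp φ)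
  apply Subgroup.inclusion_injective (TS_le hk N)
  rw [map_one]
  exact h3

/-- top elements inside overgroups -/
def tq (Y : Cls) {G G' : Type} [Group G] [Group G'] (N : Type) [Group N] (ι : G →* G') :
    res Y G →* Wr.ovr N (res Y G') :=
  ((Wr.top N).comp (ι.comp (res Y G).subtype)).codRestrict _ (fun p => map_res ι p.2)

lemma tq_coe (Y : Cls) {G G' : Type} [Group G] [Group G'] (N : Type) [Group N] (ι : G →* G')
    (p : res Y G) : ((tq Y N ι p : Wr.ovr N (res Y G')) : Wr N G') = Wr.top N (ι p) := rfl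

lemma claim21 {X Y X' Y' : Cls} (hX : Closed X) (hY : Closed Y) (hX' : Closed X')
    (hY' : Closed Y') (hXY : ∀ (G : Type) [Group G], mulCls X Y G ↔ mulCls X' Y' G)
    (hle : ∀ (G : Type) [Group G], Y G → Y' G) {C₁ : Type} [Group C₁] {D : Set C₁}
    (h : Pr Y C₁ D) {w : FreeGroup ℕ} (hw : w ≠ 1) (hs : Sat X' w)
    {G C : Type} [Group G] [Group C] (hG : Y' G) (hC : Y C) : Y' (Wr (res Y G) C) := by
  classical
  apply hY'.of_res
  intro g hg
  by_contra hne
  have ht : g.t = 1 := res_eq_one (hle C hC) (map_res (Wr.topHom _ _) hg)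
  have h1 : ∃ c₀, g.f c₀ ≠ 1 := by
    by_contra hcon
    push Not at hcon
    apply hne
    ext c
    · rw [hcon c]; rfl
    · exact ht
  obtain ⟨c₀, hc₀⟩ := h1
  have hk : ((g.f c₀ : res Y G) : G) ≠ 1 := fun h => hc₀ (Subtype.ext h)
  obtain ⟨l, hl, hl1, hmin⟩ := exists_min hw hs
  have key : ∀ (N : Type) [Group N], X' N →
      ∀ φ : FreeGroup ℕ →* TS N ((g.f c₀ : res Y G) : G), φ (FreeGroup.mk l) = 1 := by
    intro N _ hN φ
    have hQ : X (Wr.ovr N (res Y (G × G))) :=
      ovr_mem hX hY hX' hY' hXY hle h hN (hY'.prod hG hG)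
    have h2 : mulCls X' Y' (Wr (Wr.ovr N (res Y (G × G))) C) := (hXY _).1 (wr_mem hX hY hQ hC)
    rw [mulCls_iff hX' hY'] at h2
    have hRt : ∀ r ∈ res Y' (Wr (Wr.ovr N (res Y (G × G))) C), r.t = 1 :=
      fun r hr => res_eq_one (hle C hC) (map_res (Wr.topHom _ _) hr)
    let E : res Y' (Wr (Wr.ovr N (res Y (G × G))) C) →* Wr N (G × G) :=
      { toFun := fun r => ((r.1.f c₀ : Wr.ovr N (res Y (G × G))) : Wr N (G × G))
        map_one' := rfl
        map_mul' := by
          intro a b
          have := hRt a.1 a.2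
          simp [this] }
    have hTS : TS N ((g.f c₀ : res Y G) : G) ≤ E.range := by
      rw [TS, Subgroup.closure_le]
      rintro x (⟨F, rfl⟩ | hx)
      · have h3 : Wr.mapL (tq Y N (MonoidHom.inl G G)) g ∈
            res Y' (Wr (Wr.ovr N (res Y (G × G))) C) := map_res _ hg
        let bF : Wr.ovr N (res Y (G × G)) := ⟨Wr.base F, (Subgroup.one_mem (res Y (G × G)) : (1 : G × G) ∈ _)⟩
        let b : Wr (Wr.ovr N (res Y (G × G))) C := Wr.base (fun _ => bF)
        have h4 : ⁅b, Wr.mapL (tq Y N (MonoidHom.inl G G)) g⁆ ∈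
            res Y' (Wr (Wr.ovr N (res Y (G × G))) C) := by
          rw [commutatorElement_def]
          exact Subgroup.mul_mem _
            ((inferInstance : (res Y' (Wr (Wr.ovr N (res Y (G × G))) C)).Normal).conj_mem _ h3 _)
            (Subgroup.inv_mem _ h3)
        refine ⟨⟨_, h4⟩, ?_⟩
        have h5 : (⁅b, Wr.mapL (tq Y N (MonoidHom.inl G G)) g⁆).f c₀ =
            ⁅bF, tq Y N (MonoidHom.inl G G) (g.f c₀)⁆ := by
          rw [commutatorElement_def, commutatorElement_def]
          simp [ht, b]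
        change (((⁅b, Wr.mapL (tq Y N (MonoidHom.inl G G)) g⁆).f c₀ :
          Wr.ovr N (res Y (G × G))) : Wr N (G × G)) = _
        rw [h5]
        rfl
      · rw [Set.mem_singleton_iff] at hx
        have h3 : Wr.mapL (tq Y N (MonoidHom.inr G G)) g ∈
            res Y' (Wr (Wr.ovr N (res Y (G × G))) C) := map_res _ hg
        refine ⟨⟨_, h3⟩, ?_⟩
        rw [hx]
        rfl
    choose r hr using fun i => hTS (φ (FreeGroup.of i)).2
    let ψ : FreeGroup ℕ →* res Y' (Wr (Wr.ovr N (res Y (G × G))) C) := FreeGroup.lift r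
    have hψ : E.comp ψ = (TS N ((g.f c₀ : res Y G) : G)).subtype.comp φ := by
      apply FreeGroup.ext_hom
      intro i
      rw [MonoidHom.comp_apply, FreeGroup.lift_apply_of, hr]
      rfl
    have h3 := hl1 _ h2 ψ
    have h4 := DFunLike.congr_fun hψ (FreeGroup.mk l)
    rw [MonoidHom.comp_apply, h3, map_one] at h4
    apply Subtype.ext
    exact h4.symm
  obtain ⟨l₀, h5, h6, h7⟩ :=
    descent X' ⟨Unit, inferInstance, hX'.triv (fun _ => rfl)⟩ hk l hl key
  exact h6 (hmin l₀ h5 h7)

/-- The class of groups embeddable in residuals. -/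
def quoCls (Y Y' : Cls) : Cls := fun D _ =>
  ∃ (G : Type) (_ : Group G) (f : D →* res Y G), Y' G ∧ Function.Injective f

lemma closed_quoCls {Y Y' : Cls} (hY' : Closed Y') {C : Type} [Group C] {D : Set C}
    (h : Pr Y C D) (hW : ∀ (G : Type) [Group G], Y' G → Y' (Wr (res Y G) C)) :
    Closed (quoCls Y Y') := by
  refine ⟨?_, ?_, ?_⟩
  · rintro G H _ _ f hf ⟨K, iK, e, hK, he⟩
    exact ⟨K, iK, e.comp f, hK, he.comp hf⟩
  · intro ι A _ hA
    choose K iK e hK he using hA
    have hmem : ∀ x : (∀ i, A i), (fun i => dg D (e i (x i))) ∈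
        res Y (∀ i, Wr (res Y (K i)) C) := by
      intro x
      let Θ : Wr (Multiplicative ℤ) C →* (∀ i, Wr (res Y (K i)) C) :=
        MonoidHom.pi fun i => Wr.mapL (zpowersHom _ (e i (x i)))
      have h1 := map_res Θ h.2.2
      have h2 : Θ (ex D) = (fun i => dg D (e i (x i))) := by
        funext i
        exact ex_map D _
      rwa [h2] at h1
    refine ⟨∀ i, Wr (res Y (K i)) C, inferInstance, MonoidHom.mk' (fun x => ⟨_, hmem x⟩) ?_,
      hY'.pi _ (fun i => hW _ (hK i)), ?_⟩
    · intro a b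
      apply Subtype.ext
      funext i
      change dg D (e i ((a * b) i)) = dg D (e i (a i)) * dg D (e i (b i))
      rw [← dg_mul, Pi.mul_apply, map_mul]
    · intro a b hab
      funext i
      have h1 := congrFun (congrArg Subtype.val hab) i
      exact he i (dg_inj h.2.1 h1)
  · intro ι U A _ hA
    choose K iK e hK he using hA
    have hmem : ∀ x : (∀ i, A i), (fun i => dg D (e i (x i))) ∈
        res Y (∀ i, Wr (res Y (K i)) C) := by
      intro x
      let Θ : Wr (Multiplicative ℤ) C →* (∀ i, Wr (res Y (K i)) C) :=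
        MonoidHom.pi fun i => Wr.mapL (zpowersHom _ (e i (x i)))
      have h1 := map_res Θ h.2.2
      have h2 : Θ (ex D) = (fun i => dg D (e i (x i))) := by
        funext i
        exact ex_map D _
      rwa [h2] at h1
    let F : (∀ i, A i) →* res Y (UP U (fun i => Wr (res Y (K i)) C)) :=
      MonoidHom.mk' (fun x => ⟨QuotientGroup.mk' _ (fun i => dg D (e i (x i))),
        map_res (QuotientGroup.mk' (upKer U (fun i => Wr (res Y (K i)) C))) (hmem x)⟩) (by
        intro a b
        apply Subtype.ext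
        change QuotientGroup.mk' (upKer U (fun i => Wr (res Y (K i)) C))
          (fun i => dg D (e i ((a * b) i))) =
          QuotientGroup.mk' (upKer U (fun i => Wr (res Y (K i)) C)) (fun i => dg D (e i (a i))) *
          QuotientGroup.mk' (upKer U (fun i => Wr (res Y (K i)) C)) (fun i => dg D (e i (b i)))
        rw [← map_mul]
        congr 1
        funext i
        rw [Pi.mul_apply, Pi.mul_apply, ← dg_mul, map_mul])
    have hF : ∀ x, F x = 1 ↔ x ∈ upKer U A := by
      intro x
      have h1 : F x = 1 ↔ (fun i => dg D (e i (x i))) ∈ upKer U (fun i => Wr (res Y (K i)) C) := by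
        rw [← QuotientGroup.eq_one_iff]
        constructor
        · intro h2; exact congrArg Subtype.val h2
        · intro h2; exact Subtype.ext h2
      rw [h1, mem_upKer, mem_upKer]
      constructor
      · intro h2
        filter_upwards [h2] with i h3
        apply he i
        rw [map_one]
        apply dg_inj h.2.1
        rw [h3, dg_one]
      · intro h2
        filter_upwards [h2] with i h3
        rw [h3, map_one, dg_one]
    refine ⟨UP U (fun i => Wr (res Y (K i)) C), inferInstance,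
      QuotientGroup.lift (upKer U A) F (fun x hx => (hF x).2 hx), hY'.up U _ (fun i => hW _ (hK i)),
      ?_⟩
    rw [injective_iff_map_eq_one]
    intro x
    induction x using QuotientGroup.induction_on with
    | _ x =>
      intro hx
      exact (QuotientGroup.eq_one_iff _).2 ((hF x).1 hx)

theorem equidiv {X Y X' Y' : Cls} (hX : Closed X) (hY : Closed Y) (hX' : Closed X')
    (hY' : Closed Y') {w w' : FreeGroup ℕ} (hw : w ≠ 1) (hw' : w' ≠ 1) (hs : Sat Y w)
    (hs' : Sat X' w') (hXY : ∀ (G : Type) [Group G], mulCls X Y G ↔ mulCls X' Y' G)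
    (hle : ∀ (G : Type) [Group G], Y G → Y' G) :
    ∃ Z : Cls, Closed Z ∧ (∀ (G : Type) [Group G], Z G → Y' G) ∧
      (∀ (G : Type) [Group G], X G ↔ mulCls X' Z G) ∧
      (∀ (G : Type) [Group G], Y' G ↔ mulCls Z Y G) := by
  obtain ⟨C, iC, D, hP⟩ := exists_pr hY hw hs
  have hc : ∀ {G A : Type} [Group G] [Group A], Y' G → Y A → Y' (Wr (res Y G) A) :=
    fun hG hA => claim21 hX hY hX' hY' hXY hle hP hw' hs' hG hA
  have hZ : Closed (quoCls Y Y') := closed_quoCls hY' hP (fun G _ hG => hc hG hP.1)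
  refine ⟨quoCls Y Y', hZ, ?_, ?_, ?_⟩
  · rintro G _ ⟨K, iK, e, hK, he⟩
    exact hY'.inj ((res Y K).subtype.comp e) ((Subgroup.subtype_injective _).comp he) hK
  · intro H _
    constructor
    · intro hH
      have h1 : mulCls X' Y' (Wr H C) := (hXY _).1 (wr_mem hX hY hH hP.1)
      rw [mulCls_iff hX' hY'] at h1
      let f : res Y (Wr H C) →* res Y ((Wr H C) ⧸ res Y' (Wr H C)) :=
        ((QuotientGroup.mk' (res Y' (Wr H C))).comp (res Y (Wr H C)).subtype).codRestrict _
          (fun x => map_res (QuotientGroup.mk' (res Y' (Wr H C))) x.2)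
      have h2 : mulCls X' (quoCls Y Y') (res Y (Wr H C)) := by
        refine mulCls_of_hom hX' hZ f
          ⟨(Wr H C) ⧸ res Y' (Wr H C), inferInstance, MonoidHom.id _, hY'.quot_res _,
            Function.injective_id⟩ ?_
        refine hX'.inj (((res Y (Wr H C)).subtype.comp f.ker.subtype).codRestrict
          (res Y' (Wr H C)) (fun x => ?_)) ?_ h1
        · have h3 : f x.1 = 1 := x.2
          exact (QuotientGroup.eq_one_iff _).1 (congrArg Subtype.val h3)
        · intro a b hab
          apply Subtype.ext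
          apply Subtype.ext
          exact congrArg (fun z : res Y' (Wr H C) => (z : Wr H C)) hab
      refine (closed_mulCls hX' hZ).inj (MonoidHom.mk' (fun h => ⟨dg D h, dg_mem hP h⟩) ?_) ?_ h2
      · intro a b
        apply Subtype.ext
        exact dg_mul D a b
      · intro a b hab
        exact dg_inj hP.2.1 (congrArg Subtype.val hab)
    · rintro ⟨N, hN, hN1, ⟨G, iG, f, hG, hf⟩⟩
      let θ : H →* G := (res Y G).subtype.comp (f.comp (QuotientGroup.mk' N))
      have hker : ∀ x ∈ θ.ker, x ∈ N := by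
        intro x hx
        have h1 : f (QuotientGroup.mk' N x) = 1 := Subtype.ext hx
        exact (QuotientGroup.eq_one_iff _).1 (hf (h1.trans (map_one f).symm))
      have hXk : X' θ.ker := hX'.inj (Subgroup.inclusion hker) (Subgroup.inclusion_injective _) hN1
      obtain ⟨F, hF, hFt⟩ := Wr.exists_kk θ
      refine hX.inj (F.codRestrict (Wr.ovr θ.ker (res Y G)) (fun h => ?_)) ?_
        (ovr_mem hX hY hX' hY' hXY hle hP hXk hG)
      · rw [Wr.mem_ovr, hFt]
        exact (f (QuotientGroup.mk' N h)).2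
      · intro a b hab
        exact hF (congrArg Subtype.val hab)
  · intro H _
    constructor
    · intro hH
      exact ⟨res Y H, inferInstance, ⟨H, inferInstance, MonoidHom.id _, hH, Function.injective_id⟩,
        hY.quot_res H⟩
    · rintro ⟨N, hN, ⟨G, iG, f, hG, hf⟩, hQ⟩
      obtain ⟨F, hF, hFt⟩ := Wr.exists_kk (QuotientGroup.mk' N)
      have hk : ∀ x ∈ (QuotientGroup.mk' N).ker, x ∈ N := fun x hx =>
        (QuotientGroup.eq_one_iff _).1 hx
      let α : (QuotientGroup.mk' N).ker →* res Y G := f.comp (Subgroup.inclusion hk)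
      have hα : Function.Injective α := hf.comp (Subgroup.inclusion_injective _)
      refine hY'.inj ((Wr.mapL α).comp F) ?_ (hc hG hQ)
      intro a b hab
      apply hF
      ext x
      · have h1 := congrArg (fun z => z.f x) hab
        exact congrArg Subtype.val (hα h1)
      · exact congrArg (fun z => z.t) hab

/-- The right factors are comparable. -/
lemma comparable {X Y X' Y' : Cls} (hX : Closed X) (hY : Closed Y) (hX' : Closed X')
    (hY' : Closed Y') {w w' : FreeGroup ℕ} (hw : w ≠ 1) (hw' : w' ≠ 1) (hs : Sat X w)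
    (hs' : Sat X' w') (hXY : ∀ (G : Type) [Group G], mulCls X Y G ↔ mulCls X' Y' G) :
    (∀ (G : Type) [Group G], Y G → Y' G) ∨ (∀ (G : Type) [Group G], Y' G → Y G) := by
  by_contra hcon
  rw [not_or] at hcon
  obtain ⟨h1, h2⟩ := hcon
  push Not at h1 h2
  obtain ⟨B, iB, hB, hB'⟩ := h1
  obtain ⟨E, iE, hE, hE'⟩ := h2
  obtain ⟨l, hl1, hl2, hl3⟩ := exists_min hw hs
  obtain ⟨l', hl1', hl2', hl3'⟩ := exists_min hw' hs'
  obtain ⟨m, hm1, hm2, hm3⟩ :=
    shorter hX hY hX' hY' (fun G _ => (hXY G).1) hB hB' l' hl1' hl2'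
  obtain ⟨m', hm1', hm2', hm3'⟩ :=
    shorter hX' hY' hX hY (fun G _ => (hXY G).2) hE hE' l hl1 hl2
  have h3 : l.length ≤ m.length := by
    by_contra h; exact hm2 (hl3 m (by omega) hm3)
  have h4 : l'.length ≤ m'.length := by
    by_contra h; exact hm2' (hl3' m' (by omega) hm3')
  omega

end Pool.Agent.Helper429.QV
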